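import Pool.Agent.H37.CNS.Stmts
import Pool.Agent.H54.CNZ.TRS

/-!
# Row FRC of the board `cns`: every element is a quotient of a regular one by a polynomial in `t`
-/

set_option autoImplicit false

namespace Pool.CND

open Polynomial IntermediateField
open scoped IntermediateField.algebraAdjoinAdjoin

/-- FRC -/
theorem frc_thm : S_FRC := by
  intro k L G _ _ _ _ _ _ ρ t y hcov
  obtain ⟨hfin, -⟩ := trs_fin_sep ρ t hcov
  have h1 : IsAlgebraic (adjoin k {t}) y := Algebra.IsAlgebraic.isAlgebraic y
  have h2 : IsAlgebraic (Algebra.adjoin k {t}) y :=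
    (IsFractionRing.isAlgebraic_iff (Algebra.adjoin k {t}) (adjoin k {t}) L).2 h1
  obtain ⟨a, ha, hint⟩ := h2.exists_integral_multiple
  have h3 : (a : L) ∈ (aeval t : k[X] →ₐ[k] L).range := by
    rw [← Algebra.adjoin_singleton_eq_range_aeval]
    exact a.2
  obtain ⟨q, hq⟩ := h3
  have hq' : aeval t q = (a : L) := hq
  refine ⟨q, ?_, ?_⟩
  · rintro rfl
    rw [map_zero] at hq'
    exact ha (Subtype.ext hq'.symm)
  · intro P hP
    have h4 : a • y = aeval t q * y := by
      rw [hq', Algebra.smul_def]
      rfl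
    rw [← h4]
    exact trs_int P t (Or.inr hP) _ hint

end Pool.CND
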